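import Pool.Agent.P.MP_c51580_gt.Main

/-!
Three unknotted curves, not all circles, which cannot be placed as Borromean rings.
-/

namespace Pool.Agent.Results.MP_c51580_gt.NoBorromean

open Pool.Agent.P.MP_c51580_gt

theorem result : ∃ C₁ C₂ C₃ : Set E3, IsCurve C₁ ∧ IsCurve C₂ ∧ IsCurve C₃ ∧
    Unknotted C₁ ∧ Unknotted C₂ ∧ Unknotted C₃ ∧ ¬ IsCircle C₃ ∧ ¬ FormsBorromean C₁ C₂ C₃ :=
  main

end Pool.Agent.Results.MP_c51580_gt.NoBorromean
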